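import Mathlib

/-!
# The classes: two parabolas over a prime field, lifted to boxes of integers
-/

namespace MP_dbc9ae_lc

/-- The labels of the points over the first parabola. -/
def LP : Finset ℤ := {-4, 1}

/-- The labels of the points over the second parabola. -/
def LQ : Finset ℤ := {-4, 3}

/-- Triples over the parabola `y = a x^2`. -/
def InP (q L : ℕ) (a : ZMod q) (t : ℤ × ℤ × ℤ) : Prop :=
  |t.1| < L * q ∧ |t.2.1| < L * q ∧ (t.1 : ZMod q) ≠ 0 ∧
    (t.2.1 : ZMod q) = a * (t.1 : ZMod q) ^ 2 ∧ t.2.2 ∈ LP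

/-- Triples over the parabola `y = - a x^2`. -/
def InQ (q L : ℕ) (a : ZMod q) (t : ℤ × ℤ × ℤ) : Prop :=
  |t.1| < L * q ∧ |t.2.1| < L * q ∧ (t.1 : ZMod q) ≠ 0 ∧
    (t.2.1 : ZMod q) = -(a * (t.1 : ZMod q) ^ 2) ∧ t.2.2 ∈ LQ

/-- Lifting one coordinate. -/
theorem lift_coord {q L : ℕ} (hq : 0 < q) (x0 : ℤ) (c : ZMod q) (h0 : |x0| < L * q) :
    ∃ g : ℕ → ℤ, (∀ k < L, (g k : ZMod q) = c ∧ |g k| < L * q ∧ |x0 + g k| < L * q) ∧
      ∀ k l, g k = g l → k = l := by
  obtain ⟨x1, rfl⟩ := ZMod.intCast_surjective c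
  have hq' : (0 : ℤ) < q := by exact_mod_cast hq
  rw [abs_lt] at h0
  by_cases hx : x0 ≤ 0
  · refine ⟨fun k => x1 % q + q * k, fun k hk => ?_, fun k l hkl => ?_⟩
    · have h1 := Int.emod_nonneg x1 hq'.ne'
      have h2 := Int.emod_lt_of_pos x1 hq'
      have hk' : (k : ℤ) + 1 ≤ L := by exact_mod_cast hk
      have h3 : (q : ℤ) * (k + 1) ≤ q * L := mul_le_mul_of_nonneg_left hk' hq'.le
      have h4 : (0 : ℤ) ≤ q * k := by positivity
      refine ⟨?_, ?_, ?_⟩
      · have : ((x1 % q : ℤ) : ZMod q) = (x1 : ZMod q) := by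
          rw [ZMod.intCast_eq_intCast_iff]
          exact Int.mod_modEq x1 q
        push_cast [this]
        simp
      · rw [abs_lt]
        constructor <;> nlinarith
      · rw [abs_lt]
        constructor <;> nlinarith
    · simp only at hkl
      have : (q : ℤ) * k = q * l := by linarith
      have := mul_left_cancel₀ hq'.ne' this
      exact_mod_cast this
  · refine ⟨fun k => -((-x1) % q) - q * k, fun k hk => ?_, fun k l hkl => ?_⟩
    · have h1 := Int.emod_nonneg (-x1) hq'.ne'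
      have h2 := Int.emod_lt_of_pos (-x1) hq'
      have hk' : (k : ℤ) + 1 ≤ L := by exact_mod_cast hk
      have h3 : (q : ℤ) * (k + 1) ≤ q * L := mul_le_mul_of_nonneg_left hk' hq'.le
      have h4 : (0 : ℤ) ≤ q * k := by positivity
      refine ⟨?_, ?_, ?_⟩
      · have : (((-x1) % q : ℤ) : ZMod q) = ((-x1 : ℤ) : ZMod q) := by
          rw [ZMod.intCast_eq_intCast_iff]
          exact Int.mod_modEq (-x1) q
        push_cast [this]
        simp
      · rw [abs_lt]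
        constructor <;> nlinarith
      · rw [abs_lt]
        constructor <;> nlinarith
    · simp only at hkl
      have : (q : ℤ) * k = q * l := by linarith
      have := mul_left_cancel₀ hq'.ne' this
      exact_mod_cast this

theorem two_ne {q : ℕ} [Fact q.Prime] (hq2 : q ≠ 2) : (2 : ZMod q) ≠ 0 := by
  intro h
  have h' : ((2 : ℕ) : ZMod q) = 0 := by exact_mod_cast h
  rw [ZMod.natCast_eq_zero_iff] at h'
  have hp := (Fact.out : q.Prime)
  rcases (Nat.dvd_prime Nat.prime_two).1 h' with h | h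
  · exact hp.one_lt.ne' h
  · exact hq2 h

theorem mixed {q : ℕ} [Fact q.Prime] (hq2 : q ≠ 2) {a x y z : ZMod q} (ha : a ≠ 0) (hx : x ≠ 0)
    (hy : y ≠ 0) (hs : x + y + z = 0) (h : a * x ^ 2 + a * y ^ 2 - a * z ^ 2 = 0) : False := by
  have hz : z = -(x + y) := by linear_combination hs
  have h2 : 2 * (a * (x * y)) = 0 := by
    rw [hz] at h
    linear_combination -h
  rcases mul_eq_zero.1 h2 with h | h
  · exact two_ne hq2 h
  · rcases mul_eq_zero.1 h with h | h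
    · exact ha h
    · rcases mul_eq_zero.1 h with h | h
      · exact hx h
      · exact hy h

theorem LP_free : ∀ x ∈ LP, ∀ y ∈ LP, ∀ z ∈ LP, x + y + z ≠ 0 := by decide

theorem LQ_free : ∀ x ∈ LQ, ∀ y ∈ LQ, ∀ z ∈ LQ, x + y + z ≠ 0 := by decide

/-- A class contains no three triples (distinct or not) with sum zero. -/
theorem cls_free {q L : ℕ} [Fact q.Prime] (hq2 : q ≠ 2) {a : ZMod q} (ha : a ≠ 0)
    {t u v : ℤ × ℤ × ℤ} (ht : InP q L a t ∨ InQ q L a t) (hu : InP q L a u ∨ InQ q L a u)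
    (hv : InP q L a v ∨ InQ q L a v) (h1 : t.1 + u.1 + v.1 = 0)
    (h2 : t.2.1 + u.2.1 + v.2.1 = 0) (h3 : t.2.2 + u.2.2 + v.2.2 = 0) : False := by
  have e1 : (t.1 : ZMod q) + u.1 + v.1 = 0 := by exact_mod_cast congrArg (Int.cast : ℤ → ZMod q) h1
  have e2 : (t.2.1 : ZMod q) + u.2.1 + v.2.1 = 0 := by
    exact_mod_cast congrArg (Int.cast : ℤ → ZMod q) h2
  rcases ht with ⟨-, -, tx, ty, tl⟩ | ⟨-, -, tx, ty, tl⟩ <;>
  rcases hu with ⟨-, -, ux, uy, ul⟩ | ⟨-, -, ux, uy, ul⟩ <;>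
  rcases hv with ⟨-, -, vx, vy, vl⟩ | ⟨-, -, vx, vy, vl⟩
  · exact LP_free _ tl _ ul _ vl h3
  · exact mixed hq2 ha tx ux e1 (by rw [ty, uy, vy] at e2; linear_combination e2)
  · exact mixed hq2 ha tx vx (z := (u.1 : ZMod q)) (by linear_combination e1)
      (by rw [ty, uy, vy] at e2; linear_combination e2)
  · exact mixed hq2 ha ux vx (z := (t.1 : ZMod q)) (by linear_combination e1)
      (by rw [ty, uy, vy] at e2; linear_combination -e2)
  · exact mixed hq2 ha ux vx (z := (t.1 : ZMod q)) (by linear_combination e1)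
      (by rw [ty, uy, vy] at e2; linear_combination e2)
  · exact mixed hq2 ha tx vx (z := (u.1 : ZMod q)) (by linear_combination e1)
      (by rw [ty, uy, vy] at e2; linear_combination -e2)
  · exact mixed hq2 ha tx ux e1 (by rw [ty, uy, vy] at e2; linear_combination -e2)
  · exact LQ_free _ tl _ ul _ vl h3

/-- Every triple over a parabola `y = b x^2` with `b ≠ ± a` is blocked by many disjoint pairs of
the class of `a`. -/
theorem cov {q L : ℕ} [Fact q.Prime] (hq2 : q ≠ 2) {a b : ZMod q} (ha : a ≠ 0) (hb : b ≠ 0)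
    (h1 : b ≠ a) (h2 : b ≠ -a) {w : ℤ × ℤ × ℤ} (hX : |w.1| < L * q) (hY : |w.2.1| < L * q)
    (hx0 : (w.1 : ZMod q) ≠ 0) (hy : (w.2.1 : ZMod q) = b * (w.1 : ZMod q) ^ 2)
    (hl : w.2.2 = -4 ∨ w.2.2 = 1 ∨ w.2.2 = 3) :
    ∃ g h : ℕ → ℤ, ∃ l1 l2 : ℤ, l1 + l2 = -w.2.2 ∧
      (∀ k < L, ∀ l < L, InP q L a (g k, h l, l1) ∧
        InQ q L a (-w.1 - g k, -w.2.1 - h l, l2)) ∧
      (∀ k l, g k = g l → k = l) ∧ (∀ k l, h k = h l → k = l) ∧
      ∀ k < L, ∀ l < L, g k ≠ -w.1 - g l := by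
  have hq0 : 0 < q := (Fact.out : q.Prime).pos
  have h20 := two_ne (q := q) hq2
  set x0 : ZMod q := (w.1 : ZMod q) with hx0'
  set x1 : ZMod q := -(x0 * (1 - b / a) / 2) with hx1
  have hab : 1 - b / a ≠ 0 := by
    intro h
    apply h1
    field_simp at h
    linear_combination -h
  have hab' : 1 + b / a ≠ 0 := by
    intro h
    apply h2
    field_simp at h
    linear_combination h
  have hx1ne : x1 ≠ 0 := by
    rw [hx1]
    exact neg_ne_zero.2 (div_ne_zero (mul_ne_zero hx0 hab) h20)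
  have hx2 : -x0 - x1 = -(x0 * (1 + b / a) / 2) := by
    rw [hx1]
    field_simp
    ring
  have hx2ne : -x0 - x1 ≠ 0 := by
    rw [hx2]
    exact neg_ne_zero.2 (div_ne_zero (mul_ne_zero hx0 hab') h20)
  have hx12 : x1 ≠ -x0 - x1 := by
    intro h
    rw [hx2, hx1] at h
    have : 2 * b = 0 := by
      field_simp at h
      linear_combination h
    rcases mul_eq_zero.1 this with h | h
    · exact h20 h
    · exact hb h
  have hpar : a * x1 ^ 2 - a * (-x0 - x1) ^ 2 = -(b * x0 ^ 2) := by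
    rw [hx1]
    field_simp
    ring
  obtain ⟨g, hg, hginj⟩ := lift_coord (L := L) hq0 w.1 x1 hX
  obtain ⟨h, hh, hhinj⟩ := lift_coord (L := L) hq0 w.2.1 (a * x1 ^ 2) hY
  obtain ⟨l1, l2, hl12, hl1, hl2⟩ : ∃ l1 l2 : ℤ, l1 + l2 = -w.2.2 ∧ l1 ∈ LP ∧ l2 ∈ LQ := by
    rcases hl with hl | hl | hl
    · exact ⟨1, 3, by rw [hl]; norm_num, by decide, by decide⟩
    · exact ⟨-4, 3, by rw [hl]; norm_num, by decide, by decide⟩
    · exact ⟨1, -4, by rw [hl]; norm_num, by decide, by decide⟩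
  refine ⟨g, h, l1, l2, hl12, fun k hk l hl => ⟨⟨(hg k hk).2.1, (hh l hl).2.1, ?_, ?_, hl1⟩,
    ⟨?_, ?_, ?_, ?_, hl2⟩⟩, hginj, hhinj, fun k hk l hl hkl => ?_⟩
  · show ((g k : ℤ) : ZMod q) ≠ 0
    rw [(hg k hk).1]
    exact hx1ne
  · show ((h l : ℤ) : ZMod q) = a * ((g k : ℤ) : ZMod q) ^ 2
    rw [(hg k hk).1, (hh l hl).1]
  · have := (hg k hk).2.2
    rw [← abs_neg] at this
    convert this using 2
    ring
  · have := (hh l hl).2.2
    rw [← abs_neg] at this
    convert this using 2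
    ring
  · show ((-w.1 - g k : ℤ) : ZMod q) ≠ 0
    push_cast
    rw [(hg k hk).1]
    exact hx2ne
  · show ((-w.2.1 - h l : ℤ) : ZMod q) = -(a * ((-w.1 - g k : ℤ) : ZMod q) ^ 2)
    push_cast
    rw [(hg k hk).1, (hh l hl).1, hy, ← hx0']
    linear_combination -hpar
  · apply hx12
    have := congrArg (Int.cast : ℤ → ZMod q) hkl
    push_cast at this
    rw [(hg k hk).1, (hg l hl).1] at this
    exact this

/-! ## Counting -/

theorem card_residue {q L : ℕ} (hq : 0 < q) (c : ZMod q) :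
    ((Finset.Ico (-(L * q : ℤ)) (L * q)).filter (fun Y : ℤ => (Y : ZMod q) = c)).card
      = 2 * L := by
  obtain ⟨v, rfl⟩ := ZMod.intCast_surjective c
  have hq' : (0 : ℤ) < q := by exact_mod_cast hq
  have h1 : (Finset.Ico (-(L * q : ℤ)) (L * q)).filter (fun Y : ℤ => (Y : ZMod q) = (v : ZMod q))
      = (Finset.Ico (-(L * q : ℤ)) (L * q)).filter (fun Y : ℤ => Y ≡ v [ZMOD q]) := by
    apply Finset.filter_congr
    intro Y _
    exact ZMod.intCast_eq_intCast_iff Y v q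
  rw [h1]
  have h2 := Int.Ico_filter_modEq_card (-(L * q : ℤ)) (L * q) hq' v
  have hqQ : ((q : ℤ) : ℚ) ≠ 0 := by exact_mod_cast hq'.ne'
  have h3 : (((L * q : ℤ) : ℚ) - v) / ((q : ℤ) : ℚ)
      = (((-(L * q : ℤ) : ℤ) : ℚ) - v) / ((q : ℤ) : ℚ) + ((2 * L : ℤ) : ℚ) := by
    push_cast
    push_cast at hqQ
    field_simp
    ring
  rw [h3, Int.ceil_add_intCast] at h2
  have h4 : (0 : ℤ) ≤ 2 * L := by positivity
  rw [add_sub_cancel_left, max_eq_left h4] at h2
  exact_mod_cast h2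

end MP_dbc9ae_lc
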