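import Pool.Agent.Lib.MP_dbc9ae_lc.Defs
import Pool.Agent.Lib.MP_dbc9ae_lc.Arith

/-!
# The classes as finite sets of integers
-/

namespace MP_dbc9ae_lc

/-- The box of residue lifts. -/
noncomputable def box (q L : ℕ) : Finset ℤ := Finset.Ico (-(L * q : ℤ)) (L * q)

theorem card_box_ne {q L : ℕ} (hq : 0 < q) :
    ((box q L).filter (fun X : ℤ => (X : ZMod q) ≠ 0)).card = 2 * L * (q - 1) := by
  have h1 := card_residue (L := L) hq (0 : ZMod q)
  have h2 := Finset.card_filter_add_card_filter_not (s := box q L)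
    (fun X : ℤ => (X : ZMod q) = 0)
  have h3 : (box q L).card = 2 * L * q := by
    unfold box
    rw [Int.card_Ico]
    have : ((L : ℤ) * q - -(L * q)) = ((2 * L * q : ℕ) : ℤ) := by push_cast; ring
    rw [this, Int.toNat_natCast]
  have h4 : ((box q L).filter (fun X : ℤ => (X : ZMod q) = 0)).card = 2 * L := h1
  have h5 : ((box q L).filter (fun X : ℤ => (X : ZMod q) ≠ 0)).card = 2 * L * q - 2 * L := by
    have h6 : ((box q L).filter (fun X : ℤ => (X : ZMod q) ≠ 0)).card =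
      ((box q L).filter (fun X : ℤ => ¬ (X : ZMod q) = 0)).card := rfl
    omega
  rw [h5, Nat.mul_sub, mul_one]

/-- Triples with a prescribed second residue. -/
noncomputable def slice (q L : ℕ) (φ : ZMod q → ZMod q) (Λ : Finset ℤ) : Finset (ℤ × ℤ × ℤ) :=
  ((box q L) ×ˢ (box q L) ×ˢ Λ).filter
    (fun t => (t.1 : ZMod q) ≠ 0 ∧ (t.2.1 : ZMod q) = φ (t.1 : ZMod q))

theorem mem_slice {q L : ℕ} {φ : ZMod q → ZMod q} {Λ : Finset ℤ} {t : ℤ × ℤ × ℤ} :
    t ∈ slice q L φ Λ ↔ (t.1 ∈ box q L ∧ t.2.1 ∈ box q L ∧ t.2.2 ∈ Λ) ∧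
      (t.1 : ZMod q) ≠ 0 ∧ (t.2.1 : ZMod q) = φ (t.1 : ZMod q) := by
  unfold slice
  rw [Finset.mem_filter, Finset.mem_product, Finset.mem_product]

theorem card_slice {q L : ℕ} (hq : 0 < q) (φ : ZMod q → ZMod q) (Λ : Finset ℤ) :
    (slice q L φ Λ).card = 2 * L * (q - 1) * (2 * L * Λ.card) := by
  have h1 : ∀ t ∈ slice q L φ Λ, t.1 ∈ (box q L).filter (fun X : ℤ => (X : ZMod q) ≠ 0) := by
    intro t ht
    rw [mem_slice] at ht
    exact Finset.mem_filter.2 ⟨ht.1.1, ht.2.1⟩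
  rw [Finset.card_eq_sum_card_fiberwise (f := fun t : ℤ × ℤ × ℤ => t.1) h1]
  have h2 : ∀ X ∈ (box q L).filter (fun X : ℤ => (X : ZMod q) ≠ 0),
      ((slice q L φ Λ).filter (fun t => t.1 = X)).card = 2 * L * Λ.card := by
    intro X hX
    rw [Finset.mem_filter] at hX
    have h3 : (slice q L φ Λ).filter (fun t => t.1 = X) =
        ({X} : Finset ℤ) ×ˢ ((box q L).filter (fun Y : ℤ => (Y : ZMod q) = φ (X : ZMod q))) ×ˢ Λ := by
      ext t
      rw [Finset.mem_filter, mem_slice, Finset.mem_product, Finset.mem_product,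
        Finset.mem_singleton, Finset.mem_filter]
      constructor
      · rintro ⟨⟨⟨a1, a2, a3⟩, a4, a5⟩, a6⟩
        exact ⟨a6, ⟨a2, a6 ▸ a5⟩, a3⟩
      · rintro ⟨a6, ⟨a2, a5⟩, a3⟩
        refine ⟨⟨⟨a6 ▸ hX.1, a2, a3⟩, a6 ▸ hX.2, a6 ▸ a5⟩, a6⟩
    rw [h3, Finset.card_product, Finset.card_product, Finset.card_singleton, one_mul]
    congr 1
    exact card_residue hq _
  rw [Finset.sum_congr rfl h2, Finset.sum_const, card_box_ne hq, smul_eq_mul]

/-- The triples of class `a`. -/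
noncomputable def clsT (q L : ℕ) (a : ZMod q) : Finset (ℤ × ℤ × ℤ) :=
  slice q L (fun x => a * x ^ 2) LP ∪ slice q L (fun x => -(a * x ^ 2)) LQ

theorem box_abs {q L : ℕ} {X : ℤ} (hX : X ∈ box q L) (h : (X : ZMod q) ≠ 0) : |X| < L * q := by
  unfold box at hX
  rw [Finset.mem_Ico] at hX
  rw [abs_lt]
  refine ⟨lt_of_le_of_ne hX.1 ?_, hX.2⟩
  rintro rfl
  apply h
  push_cast
  simp

theorem mem_box {q L : ℕ} {X : ℤ} (h : |X| < L * q) : X ∈ box q L := by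
  unfold box
  rw [abs_lt] at h
  rw [Finset.mem_Ico]
  exact ⟨h.1.le, h.2⟩

theorem mem_clsT {q L : ℕ} [Fact q.Prime] {a : ZMod q} (ha : a ≠ 0) {t : ℤ × ℤ × ℤ} :
    t ∈ clsT q L a ↔ InP q L a t ∨ InQ q L a t := by
  unfold clsT
  rw [Finset.mem_union, mem_slice, mem_slice]
  constructor
  · rintro (⟨⟨h1, h2, h3⟩, h4, h5⟩ | ⟨⟨h1, h2, h3⟩, h4, h5⟩)
    · refine Or.inl ⟨box_abs h1 h4, box_abs h2 ?_, h4, h5, h3⟩
      rw [h5]
      exact mul_ne_zero ha (pow_ne_zero 2 h4)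
    · refine Or.inr ⟨box_abs h1 h4, box_abs h2 ?_, h4, h5, h3⟩
      rw [h5]
      exact neg_ne_zero.2 (mul_ne_zero ha (pow_ne_zero 2 h4))
  · rintro (⟨h1, h2, h4, h5, h3⟩ | ⟨h1, h2, h4, h5, h3⟩)
    · exact Or.inl ⟨⟨mem_box h1, mem_box h2, h3⟩, h4, h5⟩
    · exact Or.inr ⟨⟨mem_box h1, mem_box h2, h3⟩, h4, h5⟩

theorem card_clsT {q L : ℕ} [Fact q.Prime] (hq2 : q ≠ 2) {a : ZMod q} (ha : a ≠ 0) :
    (clsT q L a).card = 16 * L ^ 2 * (q - 1) := by
  have hq0 : 0 < q := (Fact.out : q.Prime).pos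
  unfold clsT
  rw [Finset.card_union_of_disjoint, card_slice hq0, card_slice hq0]
  · have h1 : LP.card = 2 := by decide
    have h2 : LQ.card = 2 := by decide
    rw [h1, h2]
    ring
  · rw [Finset.disjoint_left]
    intro t ht ht'
    rw [mem_slice] at ht ht'
    have h1 := ht.2.2
    have h2 := ht'.2.2
    rw [h1] at h2
    have h3 : 2 * (a * (t.1 : ZMod q) ^ 2) = 0 := by linear_combination h2
    rcases mul_eq_zero.1 h3 with h | h
    · exact two_ne hq2 h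
    · exact mul_ne_zero ha (pow_ne_zero 2 ht.2.1) h

/-- The encoding of triples by integers. -/
def enc (q L : ℕ) (t : ℤ × ℤ × ℤ) : ℤ :=
  t.1 + (3 * L * q : ℤ) * t.2.1 + (3 * L * q : ℤ) * (3 * L * q : ℤ) * t.2.2

theorem enc_zero {M x y z : ℤ} (hx : |x| < M) (hy : |y| < M) (h : x + M * y + M * M * z = 0) :
    x = 0 ∧ y = 0 ∧ z = 0 := by
  have hM : 0 < M := (abs_nonneg x).trans_lt hx
  have h1 : x = 0 := by
    apply Int.eq_zero_of_abs_lt_dvd (m := M) _ hx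
    exact ⟨-(y + M * z), by linear_combination h⟩
  subst h1
  have h2 : M * (y + M * z) = 0 := by linear_combination h
  have h3 : y + M * z = 0 := by
    rcases mul_eq_zero.1 h2 with h | h
    · exact absurd h hM.ne'
    · exact h
  have h4 : y = 0 := by
    apply Int.eq_zero_of_abs_lt_dvd (m := M) _ hy
    exact ⟨-z, by linear_combination h3⟩
  subst h4
  refine ⟨rfl, rfl, ?_⟩
  rcases mul_eq_zero.1 (show M * z = 0 by linear_combination h3) with h | h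
  · exact absurd h hM.ne'
  · exact h

theorem enc_sum {q L : ℕ} {t u v : ℤ × ℤ × ℤ} (ht : |t.1| < L * q ∧ |t.2.1| < L * q)
    (hu : |u.1| < L * q ∧ |u.2.1| < L * q) (hv : |v.1| < L * q ∧ |v.2.1| < L * q)
    (h : enc q L t + enc q L u + enc q L v = 0) :
    t.1 + u.1 + v.1 = 0 ∧ t.2.1 + u.2.1 + v.2.1 = 0 ∧ t.2.2 + u.2.2 + v.2.2 = 0 := by
  simp only [abs_lt] at ht hu hv
  apply enc_zero (M := (3 * L * q : ℤ))
  · rw [abs_lt]
    constructor <;> linarith [ht.1.1, hu.1.1, hv.1.1, ht.1.2, hu.1.2, hv.1.2]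
  · rw [abs_lt]
    constructor <;> linarith [ht.2.1, hu.2.1, hv.2.1, ht.2.2, hu.2.2, hv.2.2]
  · unfold enc at h
    linear_combination h

theorem enc_inj {q L : ℕ} {t u : ℤ × ℤ × ℤ} (ht : |t.1| < L * q ∧ |t.2.1| < L * q)
    (hu : |u.1| < L * q ∧ |u.2.1| < L * q) (h : enc q L t = enc q L u) : t = u := by
  simp only [abs_lt] at ht hu
  have := enc_zero (M := (3 * L * q : ℤ)) (x := t.1 - u.1) (y := t.2.1 - u.2.1)
    (z := t.2.2 - u.2.2) (by
      rw [abs_lt]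
      constructor <;> linarith [ht.1.1, hu.1.1, ht.1.2, hu.1.2])
    (by
      rw [abs_lt]
      constructor <;> linarith [ht.2.1, hu.2.1, ht.2.2, hu.2.2])
    (by
      unfold enc at h
      linear_combination h)
  obtain ⟨h1, h2, h3⟩ := this
  exact Prod.ext (by linarith) (Prod.ext (by linarith) (by linarith))

theorem In_abs {q L : ℕ} {a : ZMod q} {t : ℤ × ℤ × ℤ} (h : InP q L a t ∨ InQ q L a t) :
    |t.1| < L * q ∧ |t.2.1| < L * q := by
  rcases h with h | h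
  · exact ⟨h.1, h.2.1⟩
  · exact ⟨h.1, h.2.1⟩

/-- Class `a`, as a set of integers. -/
noncomputable def cls (q L : ℕ) (a : ZMod q) : Finset ℤ := (clsT q L a).image (enc q L)

theorem card_cls {q L : ℕ} [Fact q.Prime] (hq2 : q ≠ 2) {a : ZMod q} (ha : a ≠ 0) :
    (cls q L a).card = 16 * L ^ 2 * (q - 1) := by
  unfold cls
  rw [Finset.card_image_of_injOn, card_clsT hq2 ha]
  intro t ht u hu h
  rw [Finset.mem_coe, mem_clsT ha] at ht hu
  exact enc_inj (In_abs ht) (In_abs hu) h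

theorem mem_cls {q L : ℕ} [Fact q.Prime] {a : ZMod q} (ha : a ≠ 0) {u : ℤ} :
    u ∈ cls q L a ↔ ∃ t, (InP q L a t ∨ InQ q L a t) ∧ enc q L t = u := by
  unfold cls
  rw [Finset.mem_image]
  simp only [mem_clsT ha]

theorem cls_free' {q L : ℕ} [Fact q.Prime] (hq2 : q ≠ 2) {a : ZMod q} (ha : a ≠ 0) {u v w : ℤ}
    (hu : u ∈ cls q L a) (hv : v ∈ cls q L a) (hw : w ∈ cls q L a) : u + v + w ≠ 0 := by
  rw [mem_cls ha] at hu hv hw
  obtain ⟨t1, h1, rfl⟩ := hu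
  obtain ⟨t2, h2, rfl⟩ := hv
  obtain ⟨t3, h3, rfl⟩ := hw
  intro h
  obtain ⟨e1, e2, e3⟩ := enc_sum (In_abs h1) (In_abs h2) (In_abs h3) h
  exact cls_free hq2 ha h1 h2 h3 e1 e2 e3

theorem cls_disj {q L : ℕ} [Fact q.Prime] {a b : ZMod q} (ha : a ≠ 0) (hb : b ≠ 0)
    (h1 : b ≠ a) (h2 : b ≠ -a) : Disjoint (cls q L a) (cls q L b) := by
  rw [Finset.disjoint_left]
  intro u hu hu'
  rw [mem_cls ha] at hu
  rw [mem_cls hb] at hu'
  obtain ⟨t, ht, rfl⟩ := hu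
  obtain ⟨t', ht', he⟩ := hu'
  have := enc_inj (In_abs ht') (In_abs ht) he
  subst this
  have key : (a - b) * (t'.1 : ZMod q) ^ 2 = 0 ∨ (a + b) * (t'.1 : ZMod q) ^ 2 = 0 := by
    rcases ht with ⟨-, -, -, hy, -⟩ | ⟨-, -, -, hy, -⟩ <;>
    rcases ht' with ⟨-, -, -, hy', -⟩ | ⟨-, -, -, hy', -⟩ <;>
    rw [hy] at hy'
    · left; linear_combination hy'
    · right; linear_combination hy'
    · right; linear_combination -hy'
    · left; linear_combination -hy'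
  have hx : (t'.1 : ZMod q) ^ 2 ≠ 0 := by
    rcases ht with ⟨-, -, h, -, -⟩ | ⟨-, -, h, -, -⟩ <;> exact pow_ne_zero 2 h
  rcases key with h | h
  · rcases mul_eq_zero.1 h with h | h
    · exact h1 (by linear_combination -h)
    · exact hx h
  · rcases mul_eq_zero.1 h with h | h
    · exact h2 (by linear_combination h)
    · exact hx h

/-- Every member of another class is blocked by `L ^ 2` disjoint pairs of class `a`. -/
theorem cls_cov {q L : ℕ} [Fact q.Prime] (hq2 : q ≠ 2) {a b : ZMod q} (ha : a ≠ 0) (hb : b ≠ 0)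
    (h1 : b ≠ a) (h2 : b ≠ -a) {w : ℤ} (hw : w ∈ cls q L b) :
    ∃ G : Finset ℤ, G.card = L ^ 2 ∧ ∀ u ∈ G, u ∈ cls q L a ∧ -w - u ∈ cls q L a ∧
      ∀ v ∈ G, u ≠ -w - v := by
  rw [mem_cls hb] at hw
  obtain ⟨t, ht, rfl⟩ := hw
  have hY : |t.2.1| < L * q := (In_abs ht).2
  have hX : |t.1| < L * q := (In_abs ht).1
  have hx0 : (t.1 : ZMod q) ≠ 0 := by
    rcases ht with ⟨-, -, h, -, -⟩ | ⟨-, -, h, -, -⟩ <;> exact h
  obtain ⟨β, hβ0, hβ1, hβ2, hβ⟩ : ∃ β : ZMod q, β ≠ 0 ∧ β ≠ a ∧ β ≠ -a ∧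
      (t.2.1 : ZMod q) = β * (t.1 : ZMod q) ^ 2 := by
    rcases ht with ⟨-, -, -, h, -⟩ | ⟨-, -, -, h, -⟩
    · exact ⟨b, hb, h1, h2, h⟩
    · refine ⟨-b, neg_ne_zero.2 hb, ?_, ?_, by rw [h]; ring⟩
      · intro h'
        exact h2 (by rw [← h', neg_neg])
      · intro h'
        exact h1 (neg_injective h')
  have hl : t.2.2 = -4 ∨ t.2.2 = 1 ∨ t.2.2 = 3 := by
    rcases ht with ⟨-, -, -, -, h⟩ | ⟨-, -, -, -, h⟩
    · rw [LP, Finset.mem_insert, Finset.mem_singleton] at h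
      tauto
    · rw [LQ, Finset.mem_insert, Finset.mem_singleton] at h
      tauto
  obtain ⟨g, h, l1, l2, hl12, hIn, hg, hh, hne⟩ := cov hq2 ha hβ0 hβ1 hβ2 hX hY hx0 hβ hl
  have hkey : ∀ k l : ℕ, -enc q L t - enc q L (g k, h l, l1) =
      enc q L (-t.1 - g k, -t.2.1 - h l, l2) := by
    intro k l
    unfold enc
    dsimp only
    linear_combination (-(3 * L * q : ℤ) * (3 * L * q : ℤ)) * hl12
  refine ⟨((Finset.range L) ×ˢ (Finset.range L)).image
    (fun kl : ℕ × ℕ => enc q L (g kl.1, h kl.2, l1)), ?_, ?_⟩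
  · rw [Finset.card_image_of_injOn, Finset.card_product, Finset.card_range, sq]
    rintro ⟨k, l⟩ hkl ⟨k', l'⟩ hkl' he
    rw [Finset.mem_coe, Finset.mem_product, Finset.mem_range, Finset.mem_range] at hkl hkl'
    dsimp only at hkl hkl' he
    have i1 := (hIn k hkl.1 l hkl.2).1
    have i2 := (hIn k' hkl'.1 l' hkl'.2).1
    have := enc_inj (In_abs (Or.inl i1)) (In_abs (Or.inl i2)) he
    rw [Prod.mk.injEq, Prod.mk.injEq] at this
    exact Prod.ext (hg _ _ this.1) (hh _ _ this.2.1)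
  · intro u hu
    obtain ⟨⟨k, l⟩, hkl, rfl⟩ := Finset.mem_image.1 hu
    rw [Finset.mem_product, Finset.mem_range, Finset.mem_range] at hkl
    dsimp only at hkl
    have i1 := hIn k hkl.1 l hkl.2
    refine ⟨(mem_cls ha).2 ⟨_, Or.inl i1.1, rfl⟩, ?_, ?_⟩
    · rw [hkey]
      exact (mem_cls ha).2 ⟨_, Or.inr i1.2, rfl⟩
    · intro v hv he
      obtain ⟨⟨k', l'⟩, hkl', rfl⟩ := Finset.mem_image.1 hv
      rw [Finset.mem_product, Finset.mem_range, Finset.mem_range] at hkl'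
      dsimp only at hkl' he
      rw [hkey] at he
      have i2 := hIn k' hkl'.1 l' hkl'.2
      have := enc_inj (In_abs (Or.inl i1.1)) (In_abs (Or.inr i2.2)) he
      rw [Prod.mk.injEq, Prod.mk.injEq] at this
      exact hne k hkl.1 k' hkl'.1 this.1

theorem cls_bound {q L : ℕ} [Fact q.Prime] {a : ZMod q} (ha : a ≠ 0) {u : ℤ}
    (hu : u ∈ cls q L a) : |u| < 39 * (L * q) ^ 2 := by
  rw [mem_cls ha] at hu
  obtain ⟨t, ht, rfl⟩ := hu
  obtain ⟨hX, hY⟩ := In_abs ht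
  have hl : t.2.2 = -4 ∨ t.2.2 = 1 ∨ t.2.2 = 3 := by
    rcases ht with ⟨-, -, -, -, h⟩ | ⟨-, -, -, -, h⟩
    · rw [LP, Finset.mem_insert, Finset.mem_singleton] at h
      tauto
    · rw [LQ, Finset.mem_insert, Finset.mem_singleton] at h
      tauto
  unfold enc
  generalize t.2.2 = l at *
  generalize t.2.1 = Y at *
  generalize t.1 = X at *
  rw [abs_lt] at hX hY ⊢
  set m : ℤ := (L : ℤ) * q with hm
  have hm' : (3 * L * q : ℤ) = 3 * m := by rw [hm]; ring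
  rw [hm']
  have hm0 : 0 < m := by linarith
  have e1 : m * Y ≤ m * (m - 1) := mul_le_mul_of_nonneg_left (by linarith) hm0.le
  have e2 : m * (-(m - 1)) ≤ m * Y := mul_le_mul_of_nonneg_left (by linarith) hm0.le
  rcases hl with rfl | rfl | rfl
  · constructor <;> nlinarith
  · constructor <;> nlinarith
  · constructor <;> nlinarith

theorem cls_ne_zero {q L : ℕ} [Fact q.Prime] {a : ZMod q} (ha : a ≠ 0) {u : ℤ}
    (hu : u ∈ cls q L a) : u ≠ 0 := by
  rw [mem_cls ha] at hu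
  obtain ⟨t, ht, rfl⟩ := hu
  obtain ⟨hX, hY⟩ := In_abs ht
  intro h
  have hM : (L : ℤ) * q ≤ 3 * L * q := by
    have : (0 : ℤ) ≤ (L : ℤ) * q := (abs_nonneg _).trans hX.le
    linarith
  have := enc_zero (M := (3 * L * q : ℤ)) (hX.trans_le hM) (hY.trans_le hM) h
  rcases ht with ⟨-, -, h', -, -⟩ | ⟨-, -, h', -, -⟩ <;>
  · apply h'
    rw [this.1]
    simp

end MP_dbc9ae_lc
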