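import Mathlib

/-!
# General position partitions: definitions and the analysis of any-fit runs
-/

namespace MP_dbc9ae_lc

/-- Points of the plane with rational coordinates. -/
abbrev Pt : Type := ℚ × ℚ

/-- The points `a`, `b`, `c` lie on a common line. -/
def Coll (a b c : Pt) : Prop :=
  (b.1 - a.1) * (c.2 - a.2) = (c.1 - a.1) * (b.2 - a.2)

/-- `T` is in general position: no three points of `T` lie on a common line. -/
def GenPos (T : Set Pt) : Prop :=
  ∀ a ∈ T, ∀ b ∈ T, ∀ c ∈ T, a ≠ b → a ≠ c → b ≠ c → ¬ Coll a b c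

/-- `c` partitions `S` into `k` parts (some possibly empty) in general position. -/
def IsPartition (S : Set Pt) (k : ℕ) (c : Pt → ℕ) : Prop :=
  (∀ a ∈ S, c a < k) ∧ ∀ i, GenPos {a | a ∈ S ∧ c a = i}

/-- The minimum number of parts of a partition of `S` into sets in general position. -/
noncomputable def GP (S : Set Pt) : ℕ := sInf {k | ∃ c, IsPartition S k c}

/-- The points `p 0, p 1, …` are scanned in this order and `f j` is the part of `p j`. Part `c`
blocks the `i`-th point: two distinct earlier points of part `c` are collinear with it. -/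
def Blocked (p : ℕ → Pt) (f : ℕ → ℕ) (i c : ℕ) : Prop :=
  ∃ j k : ℕ, j < i ∧ k < i ∧ f j = c ∧ f k = c ∧ p j ≠ p k ∧ Coll (p j) (p k) (p i)

/-- The greedy algorithm: the `i`-th point goes into the earliest part that does not block it
(a new part, if all the parts opened so far block it). -/
noncomputable def greedy (p : ℕ → Pt) : ℕ → ℕ
  | i => sInf {c | ¬ ∃ j k : Fin i, greedy p j = c ∧ greedy p k = c ∧ p j ≠ p k ∧
      Coll (p j) (p k) (p i)}
termination_by i => i
decreasing_by all_goals first | exact j.2 | exact k.2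

/-- `f` is an any-fit run on the first `n` points: no point is put into a part that blocks it, and
a new part is opened only if all the parts opened so far block the point. -/
def AnyFit (p : ℕ → Pt) (n : ℕ) (f : ℕ → ℕ) : Prop :=
  ∀ i < n, ¬ Blocked p f i (f i) ∧ ((∀ j < i, f j ≠ f i) → ∀ j < i, Blocked p f i (f j))

/-- The number of parts opened on the first `n` points. -/
def parts (f : ℕ → ℕ) (n : ℕ) : ℕ := ((Finset.range n).image f).card

theorem greedy_eq (p : ℕ → Pt) (i : ℕ) :
    greedy p i = sInf {c | ¬ Blocked p (greedy p) i c} := by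
  rw [greedy]
  congr 1
  ext c
  simp only [Set.mem_setOf_eq, Blocked]
  constructor
  · rintro h ⟨j, k, hj, hk, h1⟩
    exact h ⟨⟨j, hj⟩, ⟨k, hk⟩, h1⟩
  · rintro h ⟨j, k, h1⟩
    exact h ⟨j, k, j.2, k.2, h1⟩

theorem greedy_spec (p : ℕ → Pt) (i : ℕ) :
    ¬ Blocked p (greedy p) i (greedy p i) ∧ ∀ c < greedy p i, Blocked p (greedy p) i c := by
  have hne : {c | ¬ Blocked p (greedy p) i c}.Nonempty := by
    obtain ⟨c, hc⟩ := Infinite.exists_notMem_finset ((Finset.range i).image (greedy p))
    refine ⟨c, ?_⟩
    rintro ⟨j, k, hj, hk, h1, -⟩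
    exact hc (Finset.mem_image.2 ⟨j, Finset.mem_range.2 hj, h1⟩)
  constructor
  · have := Nat.sInf_mem hne
    rw [← greedy_eq] at this
    exact this
  · intro c hc
    rw [greedy_eq] at hc
    have := Nat.notMem_of_lt_sInf hc
    simpa using this

/-- The greedy algorithm is an any-fit algorithm. -/
theorem greedy_anyFit (p : ℕ → Pt) (n : ℕ) : AnyFit p n (greedy p) := by
  intro i _
  refine ⟨(greedy_spec p i).1, fun hnew j hj => ?_⟩
  rcases lt_trichotomy (greedy p j) (greedy p i) with h | h | h
  · exact (greedy_spec p i).2 _ h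
  · exact absurd h (hnew j hj)
  · obtain ⟨j', k', h1, h2, h3, -⟩ := (greedy_spec p j).2 _ h
    exact absurd h3 (hnew j' (h1.trans hj))

/-- In an any-fit run on a sequence which lists classes `0, 1, …, m - 1` one after the other,
every class in general position and blocking all the later points, the parts are the classes. -/
theorem anyFit_key {p : ℕ → Pt} {n m : ℕ} {κ : ℕ → ℕ}
    (hmono : ∀ i j, i ≤ j → j < n → κ i ≤ κ j)
    (hgen : ∀ i < n, κ i < m → ∀ j k, j < i → k < i → κ j = κ i → κ k = κ i → p j ≠ p k →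
      ¬ Coll (p j) (p k) (p i))
    (hcov : ∀ i < n, κ i < m → ∀ c < κ i, ∃ j k, j < n ∧ k < n ∧ κ j = c ∧ κ k = c ∧
      p j ≠ p k ∧ Coll (p j) (p k) (p i))
    {f : ℕ → ℕ} (hf : AnyFit p n f) :
    ∀ i < n, κ i < m → ∀ j < i, (f j = f i ↔ κ j = κ i) := by
  intro i
  induction i using Nat.strong_induction_on with
  | _ i ih =>
    intro hi him
    have ih' : ∀ j k, j < i → k < i → (f j = f k ↔ κ j = κ k) := by
      intro j k hj hk
      rcases lt_trichotomy j k with h | h | h
      · exact ih k hk (hk.trans hi) ((hmono k i hk.le hi).trans_lt him) j h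
      · subst h
        simp
      · have := ih j hj (hj.trans hi) ((hmono j i hj.le hi).trans_lt him) k h
        rw [eq_comm, this, eq_comm]
    have claim1 : ∀ j < i, κ j ≠ κ i → Blocked p f i (f j) := by
      intro j hj hne
      have hlt : κ j < κ i := lt_of_le_of_ne (hmono j i hj.le hi) hne
      obtain ⟨j', k', hj', hk', h1, h2, h3, h4⟩ := hcov i hi him (κ j) hlt
      have hj'i : j' < i := by
        by_contra hcon
        have := hmono i j' (not_lt.1 hcon) hj'
        omega
      have hk'i : k' < i := by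
        by_contra hcon
        have := hmono i k' (not_lt.1 hcon) hk'
        omega
      exact ⟨j', k', hj'i, hk'i, (ih' j' j hj'i hj).2 h1, (ih' k' j hk'i hj).2 h2, h3, h4⟩
    have hfi := hf i hi
    intro j hj
    constructor
    · intro hfj
      by_contra hne
      have := claim1 j hj hne
      rw [hfj] at this
      exact hfi.1 this
    · intro hκ
      by_contra hne
      by_cases hex : ∃ j0 < i, f j0 = f i
      · obtain ⟨j0, hj0, h0⟩ := hex
        have hk0 : κ j0 = κ i := by
          by_contra hne0
          have := claim1 j0 hj0 hne0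
          rw [h0] at this
          exact hfi.1 this
        have := (ih' j j0 hj hj0).2 (hκ.trans hk0.symm)
        exact hne (this.trans h0)
      · push Not at hex
        obtain ⟨j', k', h1, h2, h3, h4, h5, h6⟩ := hfi.2 hex j hj
        have e1 := (ih' j' j h1 hj).1 h3
        have e2 := (ih' k' j h2 hj).1 h4
        exact hgen i hi him j' k' h1 h2 (e1.trans hκ) (e2.trans hκ) h5 h6

/-- Such a run opens at least `m` parts, if all the classes are nonempty. -/
theorem anyFit_parts {p : ℕ → Pt} {n m : ℕ} {κ : ℕ → ℕ}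
    (hmono : ∀ i j, i ≤ j → j < n → κ i ≤ κ j)
    (hgen : ∀ i < n, κ i < m → ∀ j k, j < i → k < i → κ j = κ i → κ k = κ i → p j ≠ p k →
      ¬ Coll (p j) (p k) (p i))
    (hcov : ∀ i < n, κ i < m → ∀ c < κ i, ∃ j k, j < n ∧ k < n ∧ κ j = c ∧ κ k = c ∧
      p j ≠ p k ∧ Coll (p j) (p k) (p i))
    (hne : ∀ c < m, ∃ i < n, κ i = c)
    {f : ℕ → ℕ} (hf : AnyFit p n f) : m ≤ parts f n := by
  have key := anyFit_key hmono hgen hcov hf
  choose! g hg1 hg2 using hne
  have hinj : Set.InjOn (fun c => f (g c)) (Finset.range m : Set ℕ) := by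
    intro c hc d hd hcd
    have hc' : c < m := by simpa using hc
    have hd' : d < m := by simpa using hd
    have hcd' : f (g c) = f (g d) := hcd
    rcases lt_trichotomy (g c) (g d) with h | h | h
    · have := (key (g d) (hg1 d hd') (by rw [hg2 d hd']; exact hd') (g c) h).1 hcd'
      rw [hg2 c hc', hg2 d hd'] at this
      exact this
    · rw [← hg2 c hc', ← hg2 d hd', h]
    · have := (key (g c) (hg1 c hc') (by rw [hg2 c hc']; exact hc') (g d) h).1 hcd'.symm
      rw [hg2 c hc', hg2 d hd'] at this
      exact this.symm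
  have h1 : ((Finset.range m).image (fun c => f (g c))).card = m := by
    rw [Finset.card_image_of_injOn hinj, Finset.card_range]
  rw [← h1]
  apply Finset.card_le_card
  intro x hx
  obtain ⟨c, hc, rfl⟩ := Finset.mem_image.1 hx
  exact Finset.mem_image.2 ⟨g c, Finset.mem_range.2 (hg1 c (Finset.mem_range.1 hc)), rfl⟩

/-! ## The cubic curve -/

/-- The point of the cubic curve `y = x^3` with abscissa `u`. -/
def pt (u : ℤ) : Pt := ((u : ℚ), (u : ℚ) ^ 3)

theorem pt_injective : Function.Injective pt := by
  intro u v h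
  have := congrArg Prod.fst h
  simpa [pt] using this

theorem coll_pt {u v w : ℤ} (huv : u ≠ v) (huw : u ≠ w) (hvw : v ≠ w) :
    Coll (pt u) (pt v) (pt w) ↔ u + v + w = 0 := by
  have h1 : (u : ℚ) - v ≠ 0 := sub_ne_zero.2 (by exact_mod_cast huv)
  have h2 : (u : ℚ) - w ≠ 0 := sub_ne_zero.2 (by exact_mod_cast huw)
  have h3 : (v : ℚ) - w ≠ 0 := sub_ne_zero.2 (by exact_mod_cast hvw)
  have key : ((v : ℚ) - u) * ((w : ℚ) ^ 3 - (u : ℚ) ^ 3) -
      ((w : ℚ) - u) * ((v : ℚ) ^ 3 - (u : ℚ) ^ 3) =
      - (((u : ℚ) - v) * ((u : ℚ) - w) * ((v : ℚ) - w)) * ((u : ℚ) + v + w) := by ring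
  unfold Coll pt
  simp only
  rw [← sub_eq_zero, key, mul_eq_zero, neg_eq_zero, mul_eq_zero, mul_eq_zero]
  constructor
  · rintro (((h | h) | h) | h)
    · exact absurd h h1
    · exact absurd h h2
    · exact absurd h h3
    · exact_mod_cast h
  · intro h
    right
    exact_mod_cast h

/-- A set of points of the cubic without the inflection point is a union of two sets in general
position. -/
theorem isPartition_two {U : Set ℤ} (h0 : (0 : ℤ) ∉ U) :
    IsPartition (pt '' U) 2 (fun a => if 0 < a.1 then 0 else 1) := by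
  constructor
  · intro a _
    dsimp only
    split_ifs <;> norm_num
  · intro i a ha b hb c hc hab hac hbc hcoll
    obtain ⟨⟨u, hu, rfl⟩, hai⟩ := ha
    obtain ⟨⟨v, hv, rfl⟩, hbi⟩ := hb
    obtain ⟨⟨w, hw, rfl⟩, hci⟩ := hc
    have huv : u ≠ v := fun h => hab (by rw [h])
    have huw : u ≠ w := fun h => hac (by rw [h])
    have hvw : v ≠ w := fun h => hbc (by rw [h])
    have hs := (coll_pt huv huw hvw).1 hcoll
    have hu0 : u ≠ 0 := fun h => h0 (h ▸ hu)
    have hv0 : v ≠ 0 := fun h => h0 (h ▸ hv)
    have hw0 : w ≠ 0 := fun h => h0 (h ▸ hw)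
    dsimp only [pt] at hai hbi hci
    by_cases hu' : (0 : ℚ) < (u : ℚ)
    · rw [if_pos hu'] at hai
      subst hai
      have hv' : (0 : ℚ) < (v : ℚ) := by
        by_contra hcon
        rw [if_neg hcon] at hbi
        exact absurd hbi (by norm_num)
      have hw' : (0 : ℚ) < (w : ℚ) := by
        by_contra hcon
        rw [if_neg hcon] at hci
        exact absurd hci (by norm_num)
      have h1 : 0 < u := by exact_mod_cast hu'
      have h2 : 0 < v := by exact_mod_cast hv'
      have h3 : 0 < w := by exact_mod_cast hw'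
      omega
    · rw [if_neg hu'] at hai
      subst hai
      have hv' : ¬ (0 : ℚ) < (v : ℚ) := by
        intro hcon
        rw [if_pos hcon] at hbi
        exact absurd hbi (by norm_num)
      have hw' : ¬ (0 : ℚ) < (w : ℚ) := by
        intro hcon
        rw [if_pos hcon] at hci
        exact absurd hci (by norm_num)
      have h1 : ¬ 0 < u := fun h => hu' (by exact_mod_cast h)
      have h2 : ¬ 0 < v := fun h => hv' (by exact_mod_cast h)
      have h3 : ¬ 0 < w := fun h => hw' (by exact_mod_cast h)
      omega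

end MP_dbc9ae_lc
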