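import Pool.Agent.Lib.MP_dbc9ae_lc.Main

/-!
# The two final forms: bad orders for every `n`, bad local optima for every prime `q`
-/

namespace MP_dbc9ae_lc

theorem GP_le_two {S : Set Pt} {U : Set ℤ} (h0 : (0 : ℤ) ∉ U) (hS : S ⊆ pt '' U) :
    GP S ≤ 2 := by
  apply Nat.sInf_le
  obtain ⟨g1, g2⟩ := isPartition_two h0
  refine ⟨_, fun a ha => g1 a (hS ha), fun i => ?_⟩
  intro a ha b hb c hc
  exact g2 i a ⟨hS ha.1, ha.2⟩ b ⟨hS hb.1, hb.2⟩ c ⟨hS hc.1, hc.2⟩

theorem card_all {q L : ℕ} [Fact q.Prime] (hq2 : q ≠ 2) (hL : 0 < L) :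
    (allOf ((q - 1) / 2) (fun i => cls q L (((i + 1 : ℕ) : ZMod q)))).card =
      8 * L ^ 2 * (q - 1) ^ 2 := by
  have hp : q.Prime := Fact.out
  rw [card_allOf (sys_cls hq2 hL)]
  have h1 : ∀ i ∈ Finset.range ((q - 1) / 2), (cls q L (((i + 1 : ℕ) : ZMod q))).card
      = 16 * L ^ 2 * (q - 1) := by
    intro i hi
    rw [Finset.mem_range] at hi
    exact card_cls hq2 (idx_ne_zero (by omega) (by omega))
  rw [Finset.sum_congr rfl h1, Finset.sum_const, Finset.card_range, smul_eq_mul]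
  obtain ⟨k, hk⟩ : ∃ k, q - 1 = 2 * k := by
    obtain ⟨k, hk⟩ := hp.odd_of_ne_two hq2
    exact ⟨k, by omega⟩
  rw [hk, Nat.mul_div_cancel_left _ (by norm_num : 0 < 2)]
  ring

theorem bound_all {q L : ℕ} [Fact q.Prime] {u : ℤ}
    (hu : u ∈ allOf ((q - 1) / 2) (fun i => cls q L (((i + 1 : ℕ) : ZMod q)))) :
    |u| < 39 * (L * q) ^ 2 := by
  obtain ⟨i, hi, hu'⟩ := mem_allOf.1 hu
  exact cls_bound (idx_ne_zero (by omega) (by omega)) hu'

theorem order_all {n : ℕ} (hn : 1 ≤ n) : ∃ p : ℕ → Pt, Set.InjOn p (Set.Iio n) ∧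
    (∀ i < n, ∃ u : ℤ, |u| ≤ 12 * n ∧ p i = ((u : ℚ), (u : ℚ) ^ 3)) ∧
    GP (p '' Set.Iio n) ≤ 2 ∧ ∀ f, AnyFit p n f → Real.sqrt n / 16 ≤ parts f n := by
  rcases Nat.lt_or_ge 256 n with hbig | hsmall
  · obtain ⟨s, hs1, hs2⟩ : ∃ s : ℕ, s ^ 2 ≤ n / 8 ∧ n / 8 < (s + 1) ^ 2 :=
      ⟨Nat.sqrt (n / 8), Nat.sqrt_le' _, Nat.lt_succ_sqrt' _⟩
    have h32 : 32 ≤ n / 8 := by omega
    have hs5 : 5 ≤ s := by nlinarith
    obtain ⟨q, hqp, hq1, hq2⟩ := Nat.exists_prime_lt_and_le_two_mul ((s + 1) / 2) (by omega)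
    have : Fact q.Prime := ⟨hqp⟩
    have hq2' : q ≠ 2 := by omega
    obtain ⟨k, hk⟩ := hqp.odd_of_ne_two hq2'
    have hmk : (q - 1) / 2 = k := by omega
    have hk1 : 1 ≤ k := by omega
    have hqs : q - 1 ≤ s := by omega
    have hsk : s ≤ 4 * k := by omega
    have hcard : 8 * (q - 1) ^ 2 ≤ n := by
      have h1 : (q - 1) ^ 2 ≤ s ^ 2 := Nat.pow_le_pow_left hqs 2
      omega
    have hn256 : n ≤ 256 * k ^ 2 := by
      have h1 : (s + 1) ^ 2 ≤ (4 * k + 1) ^ 2 := Nat.pow_le_pow_left (by omega) 2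
      have h2 : n < 8 * (4 * k + 1) ^ 2 := by omega
      nlinarith
    have hsys := sys_cls (q := q) (L := 1) hq2' one_pos
    have hca := card_all (q := q) (L := 1) hq2' one_pos
    rw [hmk] at hsys hca
    set A := allOf k (fun i => cls q 1 (((i + 1 : ℕ) : ZMod q))) with hA
    have hbd : ∀ u ∈ A, |u| < 39 * (q : ℤ) ^ 2 := by
      intro u hu
      have := bound_all (q := q) (L := 1) (u := u) (by rw [hmk]; exact hu)
      simpa using this
    set E : Finset ℤ := (Finset.range (n - 8 * (q - 1) ^ 2)).image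
      (fun i : ℕ => 39 * (q : ℤ) ^ 2 + i) with hE
    have hEc : E.card = n - 8 * (q - 1) ^ 2 := by
      rw [hE, Finset.card_image_of_injective, Finset.card_range]
      intro i j hij
      have : (39 * (q : ℤ) ^ 2 + i) = 39 * (q : ℤ) ^ 2 + j := hij
      exact_mod_cast add_left_cancel this
    have hEp : ∀ u ∈ E, u ≠ 0 ∧ u ∉ A := by
      intro u hu
      obtain ⟨i, -, rfl⟩ := Finset.mem_image.1 hu
      have h1 : (0 : ℤ) < (q : ℤ) ^ 2 := by
        have : (0 : ℤ) < q := by exact_mod_cast hqp.pos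
        positivity
      have h2 : (0 : ℤ) ≤ i := by positivity
      refine ⟨by linarith, fun hu' => ?_⟩
      have := (abs_lt.1 (hbd _ hu')).2
      linarith
    have hdisj : Disjoint A E := by
      rw [Finset.disjoint_left]
      intro u hu hu'
      exact (hEp u hu').2 hu
    have htot : (A ∪ E).card = n := by
      rw [Finset.card_union_of_disjoint hdisj, hEc, hca]
      simp only [one_pow, mul_one]
      omega
    obtain ⟨p, hp1, hp2, hp3, hp4⟩ := bad_order hsys (by norm_num) hEp htot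
    refine ⟨p, hp1, fun i hi => ?_, hp3, fun f hf => ?_⟩
    · obtain ⟨u, hu, hpu⟩ := hp2 i hi
      refine ⟨u, ?_, hpu⟩
      have hqn : (39 : ℤ) * (q : ℤ) ^ 2 ≤ 8 * n := by
        have e1 : (8 : ℤ) * ((q : ℤ) - 1) ^ 2 ≤ n := by
          have : ((8 * (q - 1) ^ 2 : ℕ) : ℤ) ≤ n := by exact_mod_cast hcard
          rw [Nat.cast_mul, Nat.cast_pow, Nat.cast_sub hqp.one_lt.le] at this
          simpa using this
        have e2 : (5 : ℤ) ≤ q := by
          have : 5 ≤ q := by omega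
          exact_mod_cast this
        nlinarith
      rcases Finset.mem_union.1 hu with hu | hu
      · have := hbd u hu
        have hn0 : (0 : ℤ) ≤ n := by positivity
        linarith
      · obtain ⟨j, hj, rfl⟩ := Finset.mem_image.1 hu
        rw [Finset.mem_range] at hj
        have h1 : (j : ℤ) ≤ n := by
          have : j ≤ n := by omega
          exact_mod_cast this
        have h2 : (0 : ℤ) ≤ j := by positivity
        rw [abs_of_nonneg (by positivity)]
        linarith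
    · have h1 := hp4 f hf
      have h2 : Real.sqrt n ≤ 16 * k := by
        rw [Real.sqrt_le_iff]
        refine ⟨by positivity, ?_⟩
        have : (n : ℝ) ≤ 256 * (k : ℝ) ^ 2 := by exact_mod_cast hn256
        linarith
      have h3 : (k : ℝ) ≤ parts f n := by exact_mod_cast h1
      linarith
  · refine ⟨fun i => pt (i + 1), ?_, fun i hi => ⟨i + 1, ?_, rfl⟩, ?_, fun f _ => ?_⟩
    · intro i _ j _ hij
      have : ((i : ℤ) + 1) = j + 1 := pt_injective hij
      exact_mod_cast add_right_cancel this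
    · rw [abs_of_nonneg (by positivity)]
      have : (i : ℤ) + 1 ≤ n := by exact_mod_cast hi
      linarith
    · apply GP_le_two (U := {u | u ≠ 0}) (by simp)
      rintro a ⟨i, -, rfl⟩
      refine ⟨(i : ℤ) + 1, ?_, rfl⟩
      show (i : ℤ) + 1 ≠ 0
      positivity
    · have h1 : 1 ≤ parts f n := by
        unfold parts
        rw [Nat.one_le_iff_ne_zero, ← Nat.pos_iff_ne_zero, Finset.card_pos]
        exact ⟨f 0, Finset.mem_image.2 ⟨0, Finset.mem_range.2 hn, rfl⟩⟩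
      have h2 : Real.sqrt n ≤ 16 := by
        rw [Real.sqrt_le_iff]
        refine ⟨by norm_num, ?_⟩
        have : (n : ℝ) ≤ 256 := by exact_mod_cast hsmall
        linarith
      have h3 : (1 : ℝ) ≤ parts f n := by exact_mod_cast h1
      linarith

theorem local_all {q L : ℕ} (hqp : q.Prime) (hq5 : 5 ≤ q) (hL : 1 ≤ L) :
    ∃ (S : Finset Pt) (c : Pt → ℕ), S.card = 8 * L ^ 2 * (q - 1) ^ 2 ∧
      (∀ a ∈ S, ∃ u : ℤ, |u| ≤ 39 * (L * q) ^ 2 ∧ a = ((u : ℚ), (u : ℚ) ^ 3)) ∧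
      GP (S : Set Pt) = 2 ∧ IsPartition (S : Set Pt) ((q - 1) / 2) c ∧
      (∀ i < (q - 1) / 2, ∃ a ∈ S, c a = i) ∧
      ∀ c', IsPartition (S : Set Pt) ((q - 1) / 2) c' →
        (S.filter (fun a => c' a ≠ c a)).card ≤ L ^ 2 → ∀ a ∈ S, c' a = c a := by
  have : Fact q.Prime := ⟨hqp⟩
  have hq2 : q ≠ 2 := by omega
  have hsys := sys_cls (q := q) (L := L) hq2 hL
  have hca := card_all (q := q) (L := L) hq2 hL
  have hbd := fun u => bound_all (q := q) (L := L) (u := u)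
  set A := allOf ((q - 1) / 2) (fun i => cls q L (((i + 1 : ℕ) : ZMod q))) with hA
  have hco : ((A.image pt : Finset Pt) : Set Pt) = pt '' (A : Set ℤ) := Finset.coe_image
  refine ⟨A.image pt, colour ((q - 1) / 2) (fun i => cls q L (((i + 1 : ℕ) : ZMod q))),
    ?_, ?_, ?_, ?_, ?_, ?_⟩
  · rw [Finset.card_image_of_injective _ pt_injective, hca]
  · intro a ha
    obtain ⟨u, hu, rfl⟩ := Finset.mem_image.1 ha
    exact ⟨u, (hbd u hu).le, rfl⟩
  · rw [hco]
    apply le_antisymm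
    · exact GP_le_two (U := (A : Set ℤ))
        (fun h0 => zero_notMem hsys (Finset.mem_coe.1 h0)) (subset_refl _)
    · apply le_csInf
      · exact ⟨_, _, isPartition_colour hsys⟩
      · rintro k ⟨c, hc1, hc2⟩
        by_contra hk
        have hk1 : k ≤ 1 := by omega
        have h0m : 0 < (q - 1) / 2 := by omega
        have h1m : 1 < (q - 1) / 2 ∨ (q - 1) / 2 = 2 := by omega
        have h1m' : 1 < (q - 1) / 2 := by omega
        obtain ⟨w, hw⟩ := hsys.nonempty 1 h1m'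
        obtain ⟨G, hG, hGp⟩ := hsys.cov 0 h0m 1 h1m' (by norm_num) w hw
        obtain ⟨u, hu⟩ : G.Nonempty := by
          rw [← Finset.card_pos, hG]
          positivity
        obtain ⟨e1, e2, e3⟩ := hGp u hu
        have hd := Finset.disjoint_left.1 (hsys.disj 0 h0m 1 h1m' (by norm_num))
        have huv : u ≠ -w - u := e3 u hu
        have huw : u ≠ w := fun he => hd e1 (he ▸ hw)
        have hvw : -w - u ≠ w := fun he => hd e2 (by rw [he]; exact hw)
        have mu : pt u ∈ pt '' (A : Set ℤ) :=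
          ⟨u, Finset.mem_coe.2 (mem_allOf.2 ⟨0, h0m, e1⟩), rfl⟩
        have mv : pt (-w - u) ∈ pt '' (A : Set ℤ) :=
          ⟨_, Finset.mem_coe.2 (mem_allOf.2 ⟨0, h0m, e2⟩), rfl⟩
        have mw : pt w ∈ pt '' (A : Set ℤ) :=
          ⟨w, Finset.mem_coe.2 (mem_allOf.2 ⟨1, h1m', hw⟩), rfl⟩
        have z : ∀ a ∈ pt '' (A : Set ℤ), c a = 0 := fun a ha => by
          have := hc1 a ha
          omega
        exact hc2 0 _ ⟨mu, z _ mu⟩ _ ⟨mv, z _ mv⟩ _ ⟨mw, z _ mw⟩
          (fun he => huv (pt_injective he)) (fun he => huw (pt_injective he))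
          (fun he => hvw (pt_injective he)) ((coll_pt huv huw hvw).2 (by ring))
  · rw [hco]
    exact isPartition_colour hsys
  · intro i hi
    obtain ⟨u, hu⟩ := hsys.nonempty i hi
    exact ⟨pt u, Finset.mem_image_of_mem _ (mem_allOf.2 ⟨i, hi, hu⟩), colour_pt hsys hi hu⟩
  · intro c' hc' hcard
    rw [hco] at hc'
    exact rigid hsys hc' hcard

theorem ratio_all (ρ : ℕ → ℝ) (hρ : ∀ (n : ℕ) (p : ℕ → Pt), Set.InjOn p (Set.Iio n) →
    (parts (greedy p) n : ℝ) ≤ ρ n * GP (p '' Set.Iio n)) (n : ℕ) (hn : 1 ≤ n) :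
    Real.sqrt n / 32 ≤ ρ n := by
  obtain ⟨p, hp1, -, hp3, hp4⟩ := order_all hn
  have h1 := hp4 _ (greedy_anyFit p n)
  have h2 := hρ n p hp1
  have h3 : (GP (p '' Set.Iio n) : ℝ) ≤ 2 := by exact_mod_cast hp3
  have hs1 : 0 < Real.sqrt n := Real.sqrt_pos.2 (by exact_mod_cast hn)
  have hρ0 : 0 < ρ n := by
    by_contra hcon
    push Not at hcon
    have h4 : ρ n * GP (p '' Set.Iio n) ≤ 0 :=
      mul_nonpos_of_nonpos_of_nonneg hcon (by positivity)
    linarith
  have h5 : ρ n * GP (p '' Set.Iio n) ≤ ρ n * 2 := mul_le_mul_of_nonneg_left h3 hρ0.le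
  linarith

end MP_dbc9ae_lc
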