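import Pool.Agent.Lib.MP_dbc9ae_lc.Classes

/-!
# Bad orders for any-fit algorithms and bad local optima
-/

namespace MP_dbc9ae_lc

/-- A system of `m` disjoint zero-sum-free classes of integers, each member of each class being
blocked by `N` disjoint pairs of each other class. -/
structure Sys (m N : ℕ) (cl : ℕ → Finset ℤ) : Prop where
  free : ∀ i < m, ∀ u ∈ cl i, ∀ v ∈ cl i, ∀ w ∈ cl i, u + v + w ≠ 0
  disj : ∀ i < m, ∀ j < m, i ≠ j → Disjoint (cl i) (cl j)
  cov : ∀ i < m, ∀ j < m, i ≠ j → ∀ w ∈ cl j, ∃ G : Finset ℤ, G.card = N ∧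
    ∀ u ∈ G, u ∈ cl i ∧ -w - u ∈ cl i ∧ ∀ v ∈ G, u ≠ -w - v
  ne_zero : ∀ i < m, ∀ u ∈ cl i, u ≠ 0
  nonempty : ∀ i < m, (cl i).Nonempty

theorem idx_ne_zero {q k : ℕ} (h0 : 0 < k) (h : k < q) : ((k : ℕ) : ZMod q) ≠ 0 := by
  intro h'
  rw [ZMod.natCast_eq_zero_iff] at h'
  exact absurd (Nat.le_of_dvd h0 h') (not_le.2 h)

/-- The classes of the prime `q` form such a system. -/
theorem sys_cls {q L : ℕ} [Fact q.Prime] (hq2 : q ≠ 2) (hL : 0 < L) :
    Sys ((q - 1) / 2) (L ^ 2) (fun i => cls q L (((i + 1 : ℕ) : ZMod q))) := by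
  have hp : q.Prime := Fact.out
  have hq : 2 ≤ q := hp.two_le
  have hne : ∀ i < (q - 1) / 2, ((i + 1 : ℕ) : ZMod q) ≠ 0 := fun i hi =>
    idx_ne_zero (by omega) (by omega)
  have h1 : ∀ i < (q - 1) / 2, ∀ j < (q - 1) / 2, i ≠ j →
      ((j + 1 : ℕ) : ZMod q) ≠ ((i + 1 : ℕ) : ZMod q) := by
    intro i hi j hj hij h
    rw [ZMod.natCast_eq_natCast_iff'] at h
    rw [Nat.mod_eq_of_lt (by omega), Nat.mod_eq_of_lt (by omega)] at h
    omega
  have h2 : ∀ i < (q - 1) / 2, ∀ j < (q - 1) / 2, i ≠ j →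
      ((j + 1 : ℕ) : ZMod q) ≠ -((i + 1 : ℕ) : ZMod q) := by
    intro i hi j hj hij h
    have h' : (((j + 1) + (i + 1) : ℕ) : ZMod q) = 0 := by
      rw [Nat.cast_add, h]
      ring
    exact idx_ne_zero (by omega) (by omega) h'
  refine ⟨?_, ?_, ?_, ?_, ?_⟩
  · intro i hi u hu v hv w hw
    exact cls_free' hq2 (hne i hi) hu hv hw
  · intro i hi j hj hij
    exact cls_disj (hne i hi) (hne j hj) (h1 i hi j hj hij) (h2 i hi j hj hij)
  · intro i hi j hj hij w hw
    exact cls_cov hq2 (hne i hi) (hne j hj) (h1 i hi j hj hij) (h2 i hi j hj hij) hw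
  · intro i hi u hu
    exact cls_ne_zero (hne i hi) hu
  · intro i hi
    rw [← Finset.card_pos, card_cls hq2 (hne i hi)]
    have : 0 < q - 1 := by omega
    positivity

variable {m N : ℕ} {cl : ℕ → Finset ℤ}

/-- The whole configuration, as a set of integers. -/
noncomputable def allOf (m : ℕ) (cl : ℕ → Finset ℤ) : Finset ℤ := (Finset.range m).biUnion cl

theorem mem_allOf {u : ℤ} : u ∈ allOf m cl ↔ ∃ i < m, u ∈ cl i := by
  unfold allOf
  rw [Finset.mem_biUnion]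
  simp only [Finset.mem_range]

theorem card_allOf (h : Sys m N cl) : (allOf m cl).card = ∑ i ∈ Finset.range m, (cl i).card := by
  unfold allOf
  apply Finset.card_biUnion
  intro i hi j hj hij
  exact h.disj i (Finset.mem_range.1 hi) j (Finset.mem_range.1 hj) hij

/-- The index of the class of an integer (`m` outside the classes). -/
noncomputable def cidx (m : ℕ) (cl : ℕ → Finset ℤ) (u : ℤ) : ℕ :=
  sInf ({i | i < m ∧ u ∈ cl i} ∪ {m})

theorem cidx_eq (h : Sys m N cl) {i : ℕ} (hi : i < m) {u : ℤ} (hu : u ∈ cl i) :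
    cidx m cl u = i := by
  have h1 : cidx m cl u ∈ ({i | i < m ∧ u ∈ cl i} ∪ {m} : Set ℕ) :=
    Nat.sInf_mem ⟨i, Or.inl ⟨hi, hu⟩⟩
  have h2 : cidx m cl u ≤ i := Nat.sInf_le (Or.inl ⟨hi, hu⟩)
  rcases h1 with ⟨h3, h4⟩ | h3
  · by_contra hne
    have := h.disj _ h3 i hi hne
    exact (Finset.disjoint_left.1 this) h4 hu
  · have h3' : cidx m cl u = m := h3
    omega

theorem cidx_out {u : ℤ} (hu : u ∉ allOf m cl) : cidx m cl u = m := by
  unfold cidx
  have : ({i | i < m ∧ u ∈ cl i} ∪ {m} : Set ℕ) = {m} := by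
    ext i
    constructor
    · rintro (⟨h1, h2⟩ | h1)
      · exact absurd (mem_allOf.2 ⟨i, h1, h2⟩) hu
      · exact h1
    · intro h1
      exact Or.inr h1
  rw [this, csInf_singleton]

theorem zero_notMem (h : Sys m N cl) : (0 : ℤ) ∉ allOf m cl := by
  intro h0
  obtain ⟨i, hi, hu⟩ := mem_allOf.1 h0
  exact h.ne_zero i hi 0 hu rfl

/-! ## The local optimum -/

/-- The class function of the points. -/
noncomputable def colour (m : ℕ) (cl : ℕ → Finset ℤ) (a : Pt) : ℕ :=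
  cidx m cl ⌊a.1⌋

theorem colour_pt (h : Sys m N cl) {i : ℕ} (hi : i < m) {u : ℤ} (hu : u ∈ cl i) :
    colour m cl (pt u) = i := by
  unfold colour pt
  dsimp only
  rw [Int.floor_intCast]
  exact cidx_eq h hi hu

theorem isPartition_colour (h : Sys m N cl) :
    IsPartition (pt '' (allOf m cl : Set ℤ)) m (colour m cl) := by
  constructor
  · rintro a ⟨u, hu, rfl⟩
    obtain ⟨i, hi, hui⟩ := mem_allOf.1 (Finset.mem_coe.1 hu)
    rw [colour_pt h hi hui]
    exact hi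
  · rintro i a ⟨⟨u, hu, rfl⟩, hai⟩ b ⟨⟨v, hv, rfl⟩, hbi⟩ c ⟨⟨w, hw, rfl⟩, hci⟩ hab hac hbc hcoll
    obtain ⟨iu, hiu, hu'⟩ := mem_allOf.1 (Finset.mem_coe.1 hu)
    obtain ⟨iv, hiv, hv'⟩ := mem_allOf.1 (Finset.mem_coe.1 hv)
    obtain ⟨iw, hiw, hw'⟩ := mem_allOf.1 (Finset.mem_coe.1 hw)
    rw [colour_pt h hiu hu'] at hai
    rw [colour_pt h hiv hv'] at hbi
    rw [colour_pt h hiw hw'] at hci
    subst hai
    subst hbi
    subst hci
    have hs := (coll_pt (fun h => hab (by rw [h])) (fun h => hac (by rw [h]))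
      (fun h => hbc (by rw [h]))).1 hcoll
    exact h.free iw hiw u hu' v hv' w hw' hs

/-- No partition with the same number of parts is near the partition into the classes. -/
theorem rigid (h : Sys m N cl) {c : Pt → ℕ}
    (hc : IsPartition (pt '' (allOf m cl : Set ℤ)) m c)
    (hcard : (((allOf m cl).image pt).filter (fun a => c a ≠ colour m cl a)).card ≤ N) :
    ∀ a ∈ (allOf m cl).image pt, c a = colour m cl a := by
  by_contra hcon
  push Not at hcon
  obtain ⟨a0, ha0, hne⟩ := hcon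
  obtain ⟨w, hw, rfl⟩ := Finset.mem_image.1 ha0
  obtain ⟨j, hj, hwj⟩ := mem_allOf.1 hw
  set D := ((allOf m cl).image pt).filter (fun a => c a ≠ colour m cl a) with hD
  rw [colour_pt h hj hwj] at hne
  set i := c (pt w) with hi
  have him : i < m := hc.1 _ ⟨w, Finset.mem_coe.2 hw, rfl⟩
  obtain ⟨G, hG, hGp⟩ := h.cov i him j hj hne w hwj
  have hwD : pt w ∈ D := by
    rw [hD, Finset.mem_filter]
    refine ⟨ha0, ?_⟩
    rw [colour_pt h hj hwj]
    exact hne
  have hin : ∀ v ∈ cl i, pt v ∈ (allOf m cl).image pt := fun v hv =>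
    Finset.mem_image_of_mem _ (mem_allOf.2 ⟨i, him, hv⟩)
  have hvw : ∀ v ∈ cl i, v ≠ w := by
    rintro v hv rfl
    exact Finset.disjoint_left.1 (h.disj i him j hj hne) hv hwj
  have hmem : ∀ v ∈ cl i, c (pt v) ≠ i → pt v ∈ D.erase (pt w) := by
    intro v hv hcv
    rw [Finset.mem_erase, hD, Finset.mem_filter, colour_pt h him hv]
    exact ⟨fun he => hvw v hv (pt_injective he), hin v hv, hcv⟩
  have hφ : ∀ u ∈ G, (if c (pt u) = i then pt (-w - u) else pt u) ∈ D.erase (pt w) := by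
    intro u hu
    obtain ⟨h1, h2, h3⟩ := hGp u hu
    split_ifs with hcu'
    · have hcv : c (pt (-w - u)) ≠ i := by
        intro hcv
        have huv : u ≠ -w - u := h3 u hu
        refine hc.2 i (pt u) ⟨⟨u, Finset.mem_coe.2 (mem_allOf.2 ⟨i, him, h1⟩), rfl⟩, hcu'⟩
          (pt (-w - u)) ⟨⟨_, Finset.mem_coe.2 (mem_allOf.2 ⟨i, him, h2⟩), rfl⟩, hcv⟩
          (pt w) ⟨⟨w, Finset.mem_coe.2 hw, rfl⟩, hi.symm⟩
          (fun he => huv (pt_injective he)) (fun he => hvw u h1 (pt_injective he))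
          (fun he => hvw _ h2 (pt_injective he)) ?_
        rw [coll_pt huv (hvw u h1) (hvw _ h2)]
        ring
      exact hmem _ h2 hcv
    · exact hmem u h1 hcu'
  have hinj : Set.InjOn (fun u => if c (pt u) = i then pt (-w - u) else pt u) (G : Set ℤ) := by
    intro u hu v hv huv
    rw [Finset.mem_coe] at hu hv
    dsimp only at huv
    split_ifs at huv with h1 h2 h2
    · have := pt_injective huv
      linarith
    · exact absurd (pt_injective huv).symm ((hGp v hv).2.2 u hu)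
    · exact absurd (pt_injective huv) ((hGp u hu).2.2 v hv)
    · exact pt_injective huv
  have hle := Finset.card_le_card_of_injOn _ hφ hinj
  rw [Finset.card_erase_of_mem hwD, hG] at hle
  have hpos : 0 < D.card := Finset.card_pos.2 ⟨_, hwD⟩
  omega

/-! ## The bad order -/

theorem bad_order (h : Sys m N cl) (hN : 0 < N) {E : Finset ℤ}
    (hE : ∀ u ∈ E, u ≠ 0 ∧ u ∉ allOf m cl) {n : ℕ} (hn : (allOf m cl ∪ E).card = n) :
    ∃ p : ℕ → Pt, Set.InjOn p (Set.Iio n) ∧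
      (∀ i < n, ∃ u ∈ allOf m cl ∪ E, p i = pt u) ∧
      GP (p '' Set.Iio n) ≤ 2 ∧ ∀ f, AnyFit p n f → m ≤ parts f n := by
  classical
  set U := allOf m cl ∪ E with hU
  have hinjT : Function.Injective (fun u : ℤ => (toLex (cidx m cl u, u) : ℕ ×ₗ ℤ)) := by
    intro u v huv
    have := congrArg (fun x : ℕ ×ₗ ℤ => (ofLex x).2) huv
    exact this
  set T : Finset (ℕ ×ₗ ℤ) := U.image (fun u : ℤ => (toLex (cidx m cl u, u) : ℕ ×ₗ ℤ)) with hT
  have hTc : T.card = n := by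
    rw [hT, Finset.card_image_of_injective _ hinjT, hn]
  set e := T.orderEmbOfFin hTc with he
  have hmem : ∀ i : Fin n, ∃ u ∈ U, e i = toLex (cidx m cl u, u) := by
    intro i
    have := Finset.orderEmbOfFin_mem T hTc i
    obtain ⟨u, hu, hue⟩ := Finset.mem_image.1 this
    exact ⟨u, hu, hue.symm⟩
  have hsurj : ∀ u ∈ U, ∃ i : Fin n, e i = toLex (cidx m cl u, u) := by
    intro u hu
    have h1 : (toLex (cidx m cl u, u) : ℕ ×ₗ ℤ) ∈ Set.range e := by
      rw [he, Finset.range_orderEmbOfFin]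
      exact Finset.mem_coe.2 (Finset.mem_image_of_mem _ hu)
    exact h1
  let p : ℕ → Pt := fun i => if hi : i < n then pt (ofLex (e ⟨i, hi⟩)).2 else pt 0
  let κ : ℕ → ℕ := fun i => if hi : i < n then (ofLex (e ⟨i, hi⟩)).1 else 0
  have hpκ : ∀ i < n, ∃ u ∈ U, p i = pt u ∧ κ i = cidx m cl u := by
    intro i hi
    obtain ⟨u, hu, hue⟩ := hmem ⟨i, hi⟩
    refine ⟨u, hu, ?_, ?_⟩
    · simp only [p, dif_pos hi, hue, ofLex_toLex]
    · simp only [κ, dif_pos hi, hue, ofLex_toLex]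
  have hback : ∀ u ∈ U, ∃ i < n, p i = pt u ∧ κ i = cidx m cl u := by
    intro u hu
    obtain ⟨i, hi⟩ := hsurj u hu
    refine ⟨i, i.2, ?_, ?_⟩
    · simp only [p, dif_pos i.2, Fin.eta, hi, ofLex_toLex]
    · simp only [κ, dif_pos i.2, Fin.eta, hi, ofLex_toLex]
  have hmono : ∀ i j, i ≤ j → j < n → κ i ≤ κ j := by
    intro i j hij hj
    have hi : i < n := hij.trans_lt hj
    simp only [κ, dif_pos hi, dif_pos hj]
    have h1 : e ⟨i, hi⟩ ≤ e ⟨j, hj⟩ := e.monotone hij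
    exact Prod.Lex.monotone_fst _ _ h1
  have hpinj : Set.InjOn p (Set.Iio n) := by
    intro i hi j hj hij
    have hi' : i < n := hi
    have hj' : j < n := hj
    obtain ⟨u, hu, hue⟩ := hmem ⟨i, hi'⟩
    obtain ⟨v, hv, hve⟩ := hmem ⟨j, hj'⟩
    simp only [p, dif_pos hi', dif_pos hj', hue, hve, ofLex_toLex] at hij
    have := pt_injective hij
    subst this
    have h2 := e.injective (hue.trans hve.symm)
    exact congrArg Fin.val h2
  have hnz : ∀ u ∈ U, u ≠ 0 := by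
    intro u hu
    rcases Finset.mem_union.1 hu with hu | hu
    · rintro rfl
      exact zero_notMem h hu
    · exact (hE u hu).1
  have hcl : ∀ i < n, κ i < m → ∃ u ∈ cl (κ i), p i = pt u := by
    intro i hi him
    obtain ⟨u, hu, h1, h2⟩ := hpκ i hi
    have huA : u ∈ allOf m cl := by
      by_contra hcon
      rw [cidx_out hcon] at h2
      omega
    obtain ⟨k, hk, huk⟩ := mem_allOf.1 huA
    have := cidx_eq h hk huk
    rw [this] at h2
    exact ⟨u, h2 ▸ huk, h1⟩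
  refine ⟨p, hpinj, fun i hi => ?_, ?_, ?_⟩
  · obtain ⟨u, hu, h1, -⟩ := hpκ i hi
    exact ⟨u, hu, h1⟩
  · apply Nat.sInf_le
    have himg : p '' Set.Iio n ⊆ pt '' (U : Set ℤ) := by
      rintro a ⟨i, hi, rfl⟩
      obtain ⟨u, hu, h1, -⟩ := hpκ i hi
      exact ⟨u, Finset.mem_coe.2 hu, h1.symm⟩
    have h0 : (0 : ℤ) ∉ (U : Set ℤ) := fun h0 => hnz 0 (Finset.mem_coe.1 h0) rfl
    obtain ⟨g1, g2⟩ := isPartition_two h0
    refine ⟨_, fun a ha => g1 a (himg ha), fun i => ?_⟩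
    intro a ha b hb c hc
    exact g2 i a ⟨himg ha.1, ha.2⟩ b ⟨himg hb.1, hb.2⟩ c ⟨himg hc.1, hc.2⟩
  · intro f hf
    apply anyFit_parts (κ := κ) hmono _ _ _ hf
    · intro i hi him j k hj hk hκj hκk hpjk hcoll
      obtain ⟨u, hu, hpu⟩ := hcl i hi him
      obtain ⟨v, hv, hpv⟩ := hcl j (hj.trans hi) (hκj ▸ him)
      obtain ⟨w, hw, hpw⟩ := hcl k (hk.trans hi) (hκk ▸ him)
      rw [hκj] at hv
      rw [hκk] at hw
      rw [hpu, hpv, hpw] at hcoll
      rw [hpv, hpw] at hpjk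
      have hvw : v ≠ w := fun he => hpjk (by rw [he])
      have hvu : v ≠ u := by
        rintro rfl
        exact absurd (hpinj (show j ∈ Set.Iio n from hj.trans hi) (show i ∈ Set.Iio n from hi)
          (hpv.trans hpu.symm)) hj.ne
      have hwu : w ≠ u := by
        rintro rfl
        exact absurd (hpinj (show k ∈ Set.Iio n from hk.trans hi) (show i ∈ Set.Iio n from hi)
          (hpw.trans hpu.symm)) hk.ne
      exact h.free _ him v hv w hw u hu ((coll_pt hvw hvu hwu).1 hcoll)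
    · intro i hi him c hc
      obtain ⟨w, hw, hpw⟩ := hcl i hi him
      have hcm : c < m := hc.trans him
      obtain ⟨G, hG, hGp⟩ := h.cov c hcm (κ i) him hc.ne w hw
      obtain ⟨u, hu⟩ : G.Nonempty := by
        rw [← Finset.card_pos, hG]
        exact hN
      obtain ⟨h1, h2, h3⟩ := hGp u hu
      obtain ⟨j, hj, hpj, hκj⟩ := hback u (Finset.mem_union_left _ (mem_allOf.2 ⟨c, hcm, h1⟩))
      obtain ⟨k, hk, hpk, hκk⟩ :=
        hback (-w - u) (Finset.mem_union_left _ (mem_allOf.2 ⟨c, hcm, h2⟩))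
      rw [cidx_eq h hcm h1] at hκj
      rw [cidx_eq h hcm h2] at hκk
      have huv : u ≠ -w - u := h3 u hu
      have hd := Finset.disjoint_left.1 (h.disj c hcm (κ i) him hc.ne)
      refine ⟨j, k, hj, hk, hκj, hκk, ?_, ?_⟩
      · rw [hpj, hpk]
        exact fun he => huv (pt_injective he)
      · rw [hpj, hpk, hpw, coll_pt huv (fun he => hd h1 (he ▸ hw)) (fun he => hd h2 (by rw [he]; exact hw))]
        ring
    · intro c hc
      obtain ⟨u, hu⟩ := h.nonempty c hc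
      obtain ⟨i, hi, -, h2⟩ := hback u (Finset.mem_union_left _ (mem_allOf.2 ⟨c, hc, hu⟩))
      exact ⟨i, hi, by rw [h2, cidx_eq h hc hu]⟩

end MP_dbc9ae_lc
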